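import Pool.Agent.Helper36.CV.StmtsW

/-!
# W5: the comb function of the one-dimensional operator
-/

set_option autoImplicit false

namespace Pool.Agent.Helper36.CV

open Complex Filter Topology

theorem st_W5 (hT12 : ST_T12) (hD12 : ST_D12) (hD13 : ST_D13) (hW4 : ST_W4) : ST_W5 := by
  obtain ⟨l1, hl1, h12⟩ := hD12
  obtain ⟨l2, hl2, h13⟩ := hD13
  refine ⟨min (min l1 l2) (1 / 100), lt_min (lt_min hl1 hl2) (by norm_num), ?_⟩
  intro l hl hle
  have le1 : |l| ≤ l1 := hle.trans ((min_le_left _ _).trans (min_le_left _ _))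
  have le2 : |l| ≤ l2 := hle.trans ((min_le_left _ _).trans (min_le_right _ _))
  have le3 : |l| ≤ 1 / 100 := hle.trans (min_le_right _ _)
  obtain ⟨_, _, hanti, hbd, hR1, hR2, _, hzero, hlab, hOm⟩ := hT12 l hl le3
  obtain ⟨f, hc, ha, hi, hf, hg⟩ := hW4 l hl le3
  have hpi := Real.pi_pos
  have hre : ∀ x : ℝ, (f x).re = 1 - Om l x / Real.pi := by
    intro x
    rw [hf x]
    simp only [Complex.add_re, Complex.ofReal_re, Complex.mul_re, Complex.ofReal_im, Complex.I_re,
      Complex.I_im]
    ring
  have him : ∀ x : ℝ, (f x).im = Ly l x / Real.pi := by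
    intro x
    rw [hf x]
    simp only [Complex.add_im, Complex.ofReal_re, Complex.mul_im, Complex.ofReal_im, Complex.I_re,
      Complex.I_im]
    ring
  refine ⟨⟨f, hc, ha, hi, ?_, ?_, ?_, hg, ?_, ?_, ?_⟩⟩
  · intro x
    rw [him x]
    exact div_nonneg (hbd x).2.2 hpi.le
  · intro x y hxy
    rw [hre x, hre y]
    have h1 := hanti hxy
    have h2 := div_le_div_of_nonneg_right h1 hpi.le
    linarith
  · refine ⟨2 + |l|, ?_, ?_⟩
    · intro x hx
      rw [hre x, hR2 x hx, div_self hpi.ne']
      ring
    · intro x hx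
      rw [hre x, hR1 x hx]
      simp
  · intro x
    rw [him x, ← hzero x]
    constructor
    · intro h
      rcases div_eq_zero_iff.1 h with h | h
      · exact h
      · exact absurd h hpi.ne'
    · intro h
      rw [h, zero_div]
  · intro x hx
    rw [him x] at hx
    have hx' : x ∉ Cs l := by
      intro hmem
      rw [(hzero x).2 hmem] at hx
      simp at hx
    obtain ⟨a, b, n0, hn0⟩ := hlab x hx'
    have h1 := hOm x a b n0 hn0
    refine ⟨-b, 1 - a, ?_, ?_⟩
    · rw [hre x, h1]
      push_cast
      field_simp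
      ring
    · rw [him x]
      push_cast
      rw [abs_neg]
      by_cases hb : b = 0
      · subst hb
        simp only [Int.cast_zero, abs_zero, zero_mul]
        positivity
      · have h2 := h12 l x a b hl le1 hb hx' ⟨n0, hn0⟩
        have h3 := div_le_div_of_nonneg_right h2 hpi.le
        calc |(b : ℝ)| * (Ly l x / Real.pi) = |(b : ℝ)| * Ly l x / Real.pi := by ring
          _ ≤ |l| / (2 * Real.pi) * (1 + 12 * |l|) / Real.pi := h3
          _ = |l| / (2 * Real.pi ^ 2) * (1 + 12 * |l|) := by
              field_simp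
  · intro m n hm h0 h1
    obtain ⟨x, hx, ⟨n0, hn0⟩, hlow⟩ := h13 l (1 - n) (-m) hl le2 (by omega)
      (by push_cast; linarith) (by push_cast; linarith)
    have h2 := hOm x (1 - n) (-m) n0 hn0
    refine ⟨x, ?_, ?_⟩
    · rw [hre x, h2]
      push_cast
      field_simp
      ring
    · rw [him x]
      push_cast at hlow
      rw [abs_neg] at hlow
      have h3 := div_le_div_of_nonneg_right hlow hpi.le
      calc |l| / (2 * Real.pi ^ 2) * (1 - 12 * |l|)
          = |l| / (2 * Real.pi) * (1 - 12 * |l|) / Real.pi := by field_simp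
        _ ≤ |(m : ℝ)| * Ly l x / Real.pi := h3
        _ = |(m : ℝ)| * (Ly l x / Real.pi) := by ring

end Pool.Agent.Helper36.CV
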